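import Pool.Agent.W_4ce76a_h14b.T3Sb

set_option autoImplicit false
set_option linter.unusedSectionVars false
set_option linter.unusedSimpArgs false

/-!
# MP_4ce76a_lc, two quantifiers behind any block: two equations near the origin

`tame_core`: the equations `(1 + ξ) ^ A U_n (x_n (1 + ξ), y') = r_n` and `G_n (x_n (1 + ξ), y') = g_n` have a small
solution `(ξ, y')` for large `n`.
-/

namespace TF45

open TF14 MvPolynomial

variable {p : ℕ} [hp : Fact p.Prime] {κ : Type}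

theorem core_alg {F : Type} [Field F] {t ρ M c a b a' b' V V' r s1 s2 W W' g s3 s4 : F}
    (hρ : ρ ≠ 0) (hM : M ≠ 0) (hc : c ≠ 0)
    (h1 : V - V' = ρ * (a - a') * (M + t * M * s1) + ρ * (b - b') * (t * M * s2))
    (h2 : W - W' = ρ * (a - a') * (t * ρ * c * s4) + ρ ^ 2 * (b - b') * (c + t * c * s3)) :
    (a - (V - r) / (ρ * M)) - (a' - (V' - r) / (ρ * M)) =
      t * ((a - a') * (-s1) + (b - b') * (-s2)) ∧
    (b - (W - g) / (ρ ^ 2 * c)) - (b' - (W' - g) / (ρ ^ 2 * c)) =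
      t * ((a - a') * (-s4) + (b - b') * (-s3)) := by
  constructor
  · have h3 : (a - (V - r) / (ρ * M)) - (a' - (V' - r) / (ρ * M)) =
        (a - a') - (V - V') / (ρ * M) := by ring
    rw [h3, h1]
    field_simp
    ring
  · have h3 : (b - (W - g) / (ρ ^ 2 * c)) - (b' - (W' - g) / (ρ ^ 2 * c)) =
        (b - b') - (W - W') / (ρ ^ 2 * c) := by ring
    rw [h3, h2]
    field_simp
    ring

theorem core_alg2 {F : Type} [Field F] {S x ρ a a' b b' Uw Uw' U1 U2 z1 z2 P P' : F}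
    (h1 : S * ((1 + ρ * a) - (1 + ρ * a')) = P - P')
    (h2 : Uw - Uw' = (x * (1 + ρ * a) - x * (1 + ρ * a')) * U1 + (ρ ^ 2 * b - ρ ^ 2 * b') * U2)
    (h3 : S * Uw + P' * x * U1 = z1) (h4 : ρ * P' * U2 = z2) :
    P * Uw - P' * Uw' = ρ * (a - a') * z1 + ρ * (b - b') * z2 := by
  rw [← h3, ← h4]
  linear_combination P' * h2 - Uw * h1

theorem mv_tnd [Finite κ] {D : κ → L p} {Dn : ℕ → κ → L p}
    (hD : ∀ i, Tnd (fun n => Dn n i) (D i)) (P : MvPolynomial (κ ⊕ Fin 2) (K p))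
    {x y : ℕ → L p} {x0 y0 : L p} (hx : Tnd x x0) (hy : Tnd y y0) :
    Tnd (fun n => aeval (Sum.elim (Dn n) ![x n, y n]) P) (aeval (Sum.elim D ![x0, y0]) P) := by
  intro e he
  obtain ⟨d, hd, h⟩ := cont_aeval (O := OL p) P (Sum.elim D ![x0, y0]) he
  obtain ⟨N1, h1⟩ := QNice_all fun i => hD i d hd
  obtain ⟨N2, h2⟩ := hx d hd
  obtain ⟨N3, h3⟩ := hy d hd
  refine ⟨max N1 (max N2 N3), fun n hn => h _ ?_⟩
  have hn1 : n ≥ N1 := (le_max_left _ _).trans hn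
  have hn2 : n ≥ N2 := (le_max_left _ _).trans ((le_max_right _ _).trans hn)
  have hn3 : n ≥ N3 := (le_max_right _ _).trans ((le_max_right _ _).trans hn)
  intro i
  rcases i with i | i
  · exact h1 n hn1 i
  · fin_cases i
    · exact h2 n hn2
    · exact h3 n hn3

theorem tame_core [Finite κ] {D : κ → L p} {Dn : ℕ → κ → L p}
    (hD : ∀ i, Tnd (fun n => Dn n i) (D i)) (U G : MvPolynomial (κ ⊕ Fin 2) (K p)) {A : ℕ}
    (hA : (A : L p) ≠ 0) (hU : aeval (Sum.elim D ![0, 0]) U ≠ 0)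
    (hG : aeval (Sum.elim D ![0, 0]) (pderiv (Sum.inr 1) G) ≠ 0) {x r g : ℕ → L p}
    (hx : Tnd x 0) (hr : Tnd r (aeval (Sum.elim D ![0, 0]) U))
    (hg : Tnd g (aeval (Sum.elim D ![0, 0]) G)) {e : L p} (he : e ≠ 0) :
    ∃ n0 : ℕ, ∀ n ≥ n0, ∃ ξ y' : L p, Cl (OL p) e ξ 0 ∧ Cl (OL p) e y' 0 ∧
      (1 + ξ) ^ A * aeval (Sum.elim (Dn n) ![x n * (1 + ξ), y']) U = r n ∧
      aeval (Sum.elim (Dn n) ![x n * (1 + ξ), y']) G = g n := by
  obtain ⟨U1, U2, hU1, hU1', hU2'⟩ := dq U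
  obtain ⟨G1, G2, hG1, hG1', hG2'⟩ := dq G
  have ht0 := t_ne_zero (ta_L p)
  have htO := (ta_L p).t_mem
  obtain ⟨M, hMd⟩ : ∃ M, M = (A : L p) * aeval (Sum.elim D ![0, 0]) U := ⟨_, rfl⟩
  have hM : M ≠ 0 := by rw [hMd]; exact mul_ne_zero hA hU
  obtain ⟨c, hcd⟩ : ∃ c, c = aeval (Sum.elim D ![0, 0]) (pderiv (Sum.inr 1) G) := ⟨_, rfl⟩
  have hc : c ≠ 0 := by rw [hcd]; exact hG
  obtain ⟨d1, hd1, hc1⟩ := core_cont (Z1 A U U1) D (mul_ne_zero ht0 hM)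
  obtain ⟨d2, hd2, hc2⟩ := core_cont (Z2 A U2) D (mul_ne_zero ht0 hM)
  obtain ⟨d3, hd3, hc3⟩ := core_cont (sb4 G2) D (mul_ne_zero ht0 hc)
  obtain ⟨d4, hd4, hc4⟩ := core_cont (sb4 G1) D (one_ne_zero (α := L p))
  have hZ10 : aeval (Sum.elim D ![0, 0, 0, 0, 0, 0]) (Z1 A U U1) = M := by
    rw [Z1_ev, hMd]
    simp
  have hZ20 : aeval (Sum.elim D ![0, 0, 0, 0, 0, 0]) (Z2 A U2) = 0 := by
    rw [Z2_ev, zero_mul, zero_mul]
  have hZ30 : aeval (Sum.elim D ![0, 0, 0, 0, 0, 0]) (sb4 G2) = c := by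
    rw [sb4_ev, zero_mul, hG2', hcd]
  obtain ⟨g1, hg1⟩ : ∃ g1, g1 = aeval (Sum.elim D ![0, 0, 0, 0, 0, 0]) (sb4 G1) := ⟨_, rfl⟩
  simp only [hZ10] at hc1
  simp only [hZ20] at hc2
  simp only [hZ30] at hc3
  simp only [← hg1] at hc4
  simp only [Z1_ev] at hc1
  simp only [Z2_ev] at hc2
  simp only [sb4_ev] at hc3 hc4
  obtain ⟨d, hd, hdall⟩ := exists_all (O := OL p) ![d1, d2, d3, d4, e, 1] (by
    intro i
    fin_cases i
    · exact hd1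
    · exact hd2
    · exact hd3
    · exact hd4
    · exact he
    · exact one_ne_zero)
  have q1 := hdall 0
  have q2 := hdall 1
  have q3 := hdall 2
  have q4 := hdall 3
  have q5 := hdall 4
  have q6 := hdall 5
  change ∀ a b, Cl (OL p) d a b → Cl (OL p) d1 a b at q1
  change ∀ a b, Cl (OL p) d a b → Cl (OL p) d2 a b at q2
  change ∀ a b, Cl (OL p) d a b → Cl (OL p) d3 a b at q3
  change ∀ a b, Cl (OL p) d a b → Cl (OL p) d4 a b at q4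
  change ∀ a b, Cl (OL p) d a b → Cl (OL p) e a b at q5
  change ∀ a b, Cl (OL p) d a b → Cl (OL p) 1 a b at q6
  have hdO : d ∈ OL p := by
    obtain ⟨u, hu, h1⟩ := q6 d 0 ⟨1, one_mem _, by rw [sub_zero, mul_one]⟩
    rw [sub_zero, one_mul] at h1
    rw [h1]
    exact hu
  -- bounds for large `n`
  obtain ⟨s, hs0, hsO, hsg⟩ := Cont_scale (OL p) g1
  obtain ⟨N1, hN1⟩ := QNice_all fun i => hD i d hd
  obtain ⟨N2, hN2⟩ := hx d hd
  obtain ⟨N3, hN3⟩ := hx (tL p * d * c * s)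
    (mul_ne_zero (mul_ne_zero (mul_ne_zero ht0 hd) hc) hs0)
  have hz : Tnd (fun _ : ℕ => (0 : L p)) 0 := fun e _ => ⟨0, fun n _ => cl_refl e 0⟩
  obtain ⟨N4, hN4⟩ := tnd_diff (mv_tnd hD U hx hz) hr (d * M) (mul_ne_zero hd hM)
  obtain ⟨N5, hN5⟩ := tnd_diff (mv_tnd hD G hx hz) hg (d ^ 2 * c)
    (mul_ne_zero (pow_ne_zero 2 hd) hc)
  refine ⟨N1 + N2 + N3 + N4 + N5, fun n hn => ?_⟩
  have g1' := hN1 n (by omega)
  have g2' := hN2 n (by omega)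
  obtain ⟨u3, hu3, g3'⟩ := hN3 n (by omega)
  obtain ⟨u4, hu4, g4'⟩ := hN4 n (by omega)
  obtain ⟨u5, hu5, g5'⟩ := hN5 n (by omega)
  rw [sub_self, sub_zero] at g4' g5'
  beta_reduce at g4' g5'
  rw [sub_zero] at g3'
  clear hN1 hN2 hN3 hN4 hN5 hn
  obtain ⟨a, ha, b, hb, hfa, hfb⟩ := fix2
    (fun a b => a - ((1 + d * a) ^ A *
      aeval (Sum.elim (Dn n) ![x n * (1 + d * a), d ^ 2 * b]) U - r n) / (d * M))
    (fun a b => b - (aeval (Sum.elim (Dn n) ![x n * (1 + d * a), d ^ 2 * b]) G - g n) /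
      (d ^ 2 * c)) (by
      simp only [mul_zero, add_zero, one_pow, mul_one, one_mul]
      rw [g4', zero_sub, neg_mem_iff, mul_div_cancel_left₀ _ (mul_ne_zero hd hM)]
      exact hu4) (by
      simp only [mul_zero, add_zero, one_pow, mul_one, one_mul]
      rw [g5', zero_sub, neg_mem_iff,
        mul_div_cancel_left₀ _ (mul_ne_zero (pow_ne_zero 2 hd) hc)]
      exact hu5) (by
      intro a b a' b' ha hb ha' hb'
      have r1 : Cl (OL p) d d 0 := ⟨1, one_mem _, by rw [sub_zero, mul_one]⟩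
      have r2 : Cl (OL p) d (d * a) 0 := ⟨a, ha, by rw [sub_zero]⟩
      have r3 : Cl (OL p) d (d ^ 2 * b) 0 := ⟨d * b, mul_mem hdO hb, by ring⟩
      have r4 : Cl (OL p) d (d * a') 0 := ⟨a', ha', by rw [sub_zero]⟩
      have r5 : Cl (OL p) d (d ^ 2 * b') 0 := ⟨d * b', mul_mem hdO hb', by ring⟩
      obtain ⟨s1, hs1, k1⟩ := hc1 (Dn n) (x n) d (d * a) (d ^ 2 * b) (d * a') (d ^ 2 * b')
        (fun i => q1 _ _ (g1' i)) (q1 _ _ g2') (q1 _ _ r1) (q1 _ _ r2) (q1 _ _ r3) (q1 _ _ r4)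
        (q1 _ _ r5)
      obtain ⟨s2, hs2, k2⟩ := hc2 (Dn n) (x n) d (d * a) (d ^ 2 * b) (d * a') (d ^ 2 * b')
        (fun i => q2 _ _ (g1' i)) (q2 _ _ g2') (q2 _ _ r1) (q2 _ _ r2) (q2 _ _ r3) (q2 _ _ r4)
        (q2 _ _ r5)
      obtain ⟨s3, hs3, k3⟩ := hc3 (Dn n) (x n) d (d * a) (d ^ 2 * b) (d * a') (d ^ 2 * b')
        (fun i => q3 _ _ (g1' i)) (q3 _ _ g2') (q3 _ _ r1) (q3 _ _ r2) (q3 _ _ r3) (q3 _ _ r4)
        (q3 _ _ r5)
      obtain ⟨s4, hs4, k4⟩ := hc4 (Dn n) (x n) d (d * a) (d ^ 2 * b) (d * a') (d ^ 2 * b')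
        (fun i => q4 _ _ (g1' i)) (q4 _ _ g2') (q4 _ _ r1) (q4 _ _ r2) (q4 _ _ r3) (q4 _ _ r4)
        (q4 _ _ r5)
      have e1 := hU1 (Dn n) (x n * (1 + d * a)) (d ^ 2 * b) (x n * (1 + d * a')) (d ^ 2 * b')
      have e2 := hG1 (Dn n) (x n * (1 + d * a)) (d ^ 2 * b) (x n * (1 + d * a')) (d ^ 2 * b')
      have e3 := (Commute.all (1 + d * a) (1 + d * a')).geom_sum₂_mul A
      have f1 := core_alg2 e3 e1 rfl rfl
      rw [sub_zero] at k2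
      rw [eq_add_of_sub_eq k1] at f1
      obtain ⟨w1, w2⟩ := core_alg (t := tL p) (ρ := d) (M := M) (c := c) (a := a) (b := b)
        (a' := a') (b' := b') (r := r n) (g := g n) (s1 := s1) (s2 := s2) (s3 := s3)
        (s4 := u3 * (s * g1 + s * s4)) hd hM hc (f1.trans (by rw [k2]; ring)) (e2.trans (by
          rw [eq_add_of_sub_eq k3, eq_add_of_sub_eq k4, g3']; ring))
      exact ⟨-s1, neg_mem hs1, -s2, neg_mem hs2, -(u3 * (s * g1 + s * s4)),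
        neg_mem (mul_mem hu3 (add_mem hsg (mul_mem hsO hs4))), -s3, neg_mem hs3, w1, w2⟩)
  refine ⟨d * a, d ^ 2 * b, q5 _ _ ⟨a, ha, by rw [sub_zero]⟩,
    q5 _ _ ⟨d * b, mul_mem hdO hb, by ring⟩, ?_, ?_⟩
  · rw [sub_eq_self, div_eq_zero_iff, or_iff_left (mul_ne_zero hd hM)] at hfa
    exact sub_eq_zero.1 hfa
  · rw [sub_eq_self, div_eq_zero_iff, or_iff_left (mul_ne_zero (pow_ne_zero 2 hd) hc)] at hfb
    exact sub_eq_zero.1 hfb

end TF45
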