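import Pool.Agent.W_4ce76a_h14b.T3Fix

set_option autoImplicit false
set_option linter.unusedSectionVars false
set_option linter.unusedSimpArgs false

/-!
# MP_4ce76a_lc, two quantifiers behind any block: difference quotients
-/

namespace TF45

open TF14 MvPolynomial

variable {p : ℕ} [hp : Fact p.Prime] {κ : Type}

/-- difference quotients -/
theorem dq (P : MvPolynomial (κ ⊕ Fin 2) (K p)) : ∃ P1 P2 : MvPolynomial (κ ⊕ Fin 4) (K p),
    (∀ (D : κ → L p) (x y x' y' : L p),
      aeval (Sum.elim D ![x, y]) P - aeval (Sum.elim D ![x', y']) P =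
        (x - x') * aeval (Sum.elim D ![x, y, x', y']) P1 +
        (y - y') * aeval (Sum.elim D ![x, y, x', y']) P2) ∧
    (∀ (D : κ → L p) (x y : L p), aeval (Sum.elim D ![x, y, x, y]) P1 =
      aeval (Sum.elim D ![x, y]) (pderiv (Sum.inr 0) P)) ∧
    (∀ (D : κ → L p) (x y : L p), aeval (Sum.elim D ![x, y, x, y]) P2 =
      aeval (Sum.elim D ![x, y]) (pderiv (Sum.inr 1) P)) := by
  induction P using MvPolynomial.induction_on with
  | C a => exact ⟨0, 0, by simp, by simp, by simp⟩
  | add P Q hP hQ =>
    obtain ⟨P1, P2, e1, e2, e3⟩ := hP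
    obtain ⟨Q1, Q2, f1, f2, f3⟩ := hQ
    refine ⟨P1 + Q1, P2 + Q2, ?_, ?_, ?_⟩
    · intro D x y x' y'
      simp only [map_add]
      linear_combination e1 D x y x' y' + f1 D x y x' y'
    · intro D x y
      simp only [map_add]
      rw [e2, f2]
    · intro D x y
      simp only [map_add]
      rw [e3, f3]
  | mul_X P i hP =>
    obtain ⟨P1, P2, e1, e2, e3⟩ := hP
    let P' : MvPolynomial (κ ⊕ Fin 4) (K p) := rename (Sum.map id ![2, 3]) P
    have hP' : ∀ (D : κ → L p) (x y x' y' : L p), aeval (Sum.elim D ![x, y, x', y']) P' =
        aeval (Sum.elim D ![x', y']) P := by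
      intro D x y x' y'
      rw [aeval_rename]
      congr 2
      funext j
      rcases j with j | j
      · rfl
      · fin_cases j <;> rfl
    rcases i with i | i
    · refine ⟨P1 * X (Sum.inl i), P2 * X (Sum.inl i), ?_, ?_, ?_⟩
      · intro D x y x' y'
        simp only [map_mul, aeval_X, Sum.elim_inl]
        linear_combination D i * e1 D x y x' y'
      · intro D x y
        rw [pderiv_mul, pderiv_X_of_ne (by simp)]
        simp only [map_mul, map_add, aeval_X, Sum.elim_inl, mul_zero, map_zero, add_zero]
        rw [e2]
      · intro D x y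
        rw [pderiv_mul, pderiv_X_of_ne (by simp)]
        simp only [map_mul, map_add, aeval_X, Sum.elim_inl, mul_zero, map_zero, add_zero]
        rw [e3]
    · fin_cases i
      · refine ⟨P1 * X (Sum.inr 0) + P', P2 * X (Sum.inr 0), ?_, ?_, ?_⟩
        · intro D x y x' y'
          simp only [map_mul, map_add, aeval_X, Sum.elim_inr, hP']
          simp only [Fin.zero_eta, Fin.isValue, Matrix.cons_val_zero]
          linear_combination x * e1 D x y x' y'
        · intro D x y
          simp only [Fin.zero_eta, Fin.isValue]
          rw [pderiv_mul, pderiv_X_self]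
          simp only [map_mul, map_add, aeval_X, Sum.elim_inr, hP', map_one, mul_one]
          rw [e2]
          simp
        · intro D x y
          simp only [Fin.zero_eta, Fin.isValue]
          rw [pderiv_mul, pderiv_X_of_ne (by simp)]
          simp only [map_mul, map_add, aeval_X, Sum.elim_inr, mul_zero, map_zero, add_zero]
          rw [e3]
          simp
      · refine ⟨P1 * X (Sum.inr 1), P2 * X (Sum.inr 1) + P', ?_, ?_, ?_⟩
        · intro D x y x' y'
          simp only [map_mul, map_add, aeval_X, Sum.elim_inr, hP']
          simp only [Fin.mk_one, Fin.isValue, Matrix.cons_val_one, Matrix.cons_val_zero]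
          linear_combination y * e1 D x y x' y'
        · intro D x y
          simp only [Fin.mk_one, Fin.isValue]
          rw [pderiv_mul, pderiv_X_of_ne (by simp)]
          simp only [map_mul, map_add, aeval_X, Sum.elim_inr, mul_zero, map_zero, add_zero]
          rw [e2]
          simp
        · intro D x y
          simp only [Fin.mk_one, Fin.isValue]
          rw [pderiv_mul, pderiv_X_self]
          simp only [map_mul, map_add, aeval_X, Sum.elim_inr, hP', map_one, mul_one]
          rw [e3]
          simp

end TF45
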