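import Pool.Agent.W_4ce76a_h45.QNice

set_option autoImplicit false
set_option linter.unusedSectionVars false

/-!
# MP_4ce76a_lc, two quantifiers behind any block: a fixed point lemma in two variables
-/

namespace TF45

open TF14 MvPolynomial

variable {p : ℕ} [hp : Fact p.Prime]

/-- elements which are small to all orders vanish -/
theorem small_zero {d : L p} (h : ∀ e : L p, e ≠ 0 → Cl (OL p) e d 0) : d = 0 := by
  by_contra hd
  obtain ⟨u, hu, h1⟩ := h (d * tL p) (mul_ne_zero hd (t_ne_zero (ta_L p)))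
  rw [sub_zero, mul_assoc] at h1
  have h2 : tL p * u = 1 := by
    have h3 : d * (tL p * u) = d * 1 := by rw [← h1, mul_one]
    exact mul_left_cancel₀ hd h3
  apply (ta_L p).t_inv
  have h3 : (tL p)⁻¹ = u := by
    rw [inv_eq_iff_eq_inv]
    exact eq_inv_of_mul_eq_one_left h2
  rw [h3]
  exact hu

/-- A contraction of `O × O` has a fixed point. -/
theorem fix2 (T1 T2 : L p → L p → L p) (h1 : T1 0 0 ∈ OL p) (h2 : T2 0 0 ∈ OL p)
    (hc : ∀ a b a' b' : L p, a ∈ OL p → b ∈ OL p → a' ∈ OL p → b' ∈ OL p →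
      ∃ α ∈ OL p, ∃ β ∈ OL p, ∃ γ ∈ OL p, ∃ δ ∈ OL p,
        T1 a b - T1 a' b' = tL p * ((a - a') * α + (b - b') * β) ∧
        T2 a b - T2 a' b' = tL p * ((a - a') * γ + (b - b') * δ)) :
    ∃ a ∈ OL p, ∃ b ∈ OL p, T1 a b = a ∧ T2 a b = b := by
  have ht := (ta_L p).t_mem
  have h0 := (OL p).zero_mem
  have hT : ∀ a b : L p, a ∈ OL p → b ∈ OL p → T1 a b ∈ OL p ∧ T2 a b ∈ OL p := by
    intro a b ha hb
    obtain ⟨α, hα, β, hβ, γ, hγ, δ, hδ, e1, e2⟩ := hc a b 0 0 ha hb h0 h0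
    rw [sub_zero, sub_zero] at e1 e2
    constructor
    · rw [← sub_add_cancel (T1 a b) (T1 0 0), e1]
      exact add_mem (mul_mem ht (add_mem (mul_mem ha hα) (mul_mem hb hβ))) h1
    · rw [← sub_add_cancel (T2 a b) (T2 0 0), e2]
      exact add_mem (mul_mem ht (add_mem (mul_mem ha hγ) (mul_mem hb hδ))) h2
  obtain ⟨w1, w2, hz1, hz2, hws⟩ : ∃ w1 w2 : ℕ → L p, w1 0 = 0 ∧ w2 0 = 0 ∧
      ∀ k, w1 (k + 1) = T1 (w1 k) (w2 k) ∧ w2 (k + 1) = T2 (w1 k) (w2 k) := by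
    let w : ℕ → L p × L p := fun k => Nat.rec ((0 : L p), (0 : L p))
      (fun _ q => (T1 q.1 q.2, T2 q.1 q.2)) k
    exact ⟨fun k => (w k).1, fun k => (w k).2, rfl, rfl, fun k => ⟨rfl, rfl⟩⟩
  have hwO : ∀ k, w1 k ∈ OL p ∧ w2 k ∈ OL p := by
    intro k
    induction k with
    | zero => rw [hz1, hz2]; exact ⟨h0, h0⟩
    | succ k ih => rw [(hws k).1, (hws k).2]; exact hT _ _ ih.1 ih.2
  have hstep : ∀ k, (∃ u ∈ OL p, w1 (k + 1) - w1 k = tL p ^ k * u) ∧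
      ∃ u ∈ OL p, w2 (k + 1) - w2 k = tL p ^ k * u := by
    intro k
    induction k with
    | zero =>
      refine ⟨⟨w1 (0 + 1) - w1 0, sub_mem (hwO _).1 (hwO _).1, by rw [pow_zero, one_mul]⟩,
        ⟨w2 (0 + 1) - w2 0, sub_mem (hwO _).2 (hwO _).2, by rw [pow_zero, one_mul]⟩⟩
    | succ k ih =>
      obtain ⟨⟨u, hu, e1⟩, ⟨v, hv, e2⟩⟩ := ih
      obtain ⟨α, hα, β, hβ, γ, hγ, δ, hδ, e3, e4⟩ := hc (w1 (k + 1)) (w2 (k + 1)) (w1 k) (w2 k)
        (hwO (k + 1)).1 (hwO (k + 1)).2 (hwO k).1 (hwO k).2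
      rw [e1, e2, ← (hws (k + 1)).1, ← (hws k).1] at e3
      rw [e1, e2, ← (hws (k + 1)).2, ← (hws k).2] at e4
      constructor
      · refine ⟨u * α + v * β, add_mem (mul_mem hu hα) (mul_mem hv hβ), ?_⟩
        rw [e3]
        ring
      · refine ⟨u * γ + v * δ, add_mem (mul_mem hu hγ) (mul_mem hv hδ), ?_⟩
        rw [e4]
        ring
  obtain ⟨r, v, hr, hv, hlim⟩ := seq_compact p (k := 2) (fun m => ![w1 m, w2 m]) (by
    intro m i
    fin_cases i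
    · exact (hwO m).1
    · exact (hwO m).2)
  have hsm : ∀ e : L p, e ≠ 0 → ∃ n0 : ℕ, ∀ n ≥ n0, ∀ u ∈ OL p, ∃ u' ∈ OL p,
      tL p ^ n * u = e * u' := by
    intro e he
    obtain ⟨n0, hn0⟩ := OpenLB_pow p e⁻¹
    refine ⟨n0, fun n hn u hu => ⟨tL p ^ n * e⁻¹ * u, mul_mem (hn0 n hn) hu, ?_⟩⟩
    field_simp
  refine ⟨v 0, hv 0, v 1, hv 1, ?_, ?_⟩
  · apply sub_eq_zero.1
    apply small_zero
    intro e he
    obtain ⟨m0, hm0⟩ := hlim e he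
    obtain ⟨n0, hn0⟩ := hsm e he
    have hm := hm0 (max m0 n0) (le_max_left _ _)
    have hn : n0 ≤ r (max m0 n0) := (le_max_right _ _).trans (hr.id_le _)
    generalize r (max m0 n0) = m at hm hn
    obtain ⟨u0, hu0, e0⟩ := hm 0
    obtain ⟨u1, hu1, e1⟩ := hm 1
    change w1 m - v 0 = _ at e0
    change w2 m - v 1 = _ at e1
    obtain ⟨α, hα, β, hβ, γ, hγ, δ, hδ, e3, e4⟩ := hc (w1 m) (w2 m) (v 0) (v 1)
      (hwO m).1 (hwO m).2 (hv 0) (hv 1)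
    obtain ⟨⟨u2, hu2, e5⟩, -⟩ := hstep m
    obtain ⟨u3, hu3, e6⟩ := hn0 m hn u2 hu2
    rw [(hws m).1] at e5
    refine ⟨u0 - tL p * (u0 * α + u1 * β) + u3, add_mem (sub_mem hu0 (mul_mem ht
      (add_mem (mul_mem hu0 hα) (mul_mem hu1 hβ)))) hu3, ?_⟩
    rw [e0, e1] at e3
    rw [e6] at e5
    linear_combination e0 - e3 + e5
  · apply sub_eq_zero.1
    apply small_zero
    intro e he
    obtain ⟨m0, hm0⟩ := hlim e he
    obtain ⟨n0, hn0⟩ := hsm e he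
    have hm := hm0 (max m0 n0) (le_max_left _ _)
    have hn : n0 ≤ r (max m0 n0) := (le_max_right _ _).trans (hr.id_le _)
    generalize r (max m0 n0) = m at hm hn
    obtain ⟨u0, hu0, e0⟩ := hm 0
    obtain ⟨u1, hu1, e1⟩ := hm 1
    change w1 m - v 0 = _ at e0
    change w2 m - v 1 = _ at e1
    obtain ⟨α, hα, β, hβ, γ, hγ, δ, hδ, e3, e4⟩ := hc (w1 m) (w2 m) (v 0) (v 1)
      (hwO m).1 (hwO m).2 (hv 0) (hv 1)
    obtain ⟨-, ⟨u2, hu2, e5⟩⟩ := hstep m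
    obtain ⟨u3, hu3, e6⟩ := hn0 m hn u2 hu2
    rw [(hws m).2] at e5
    refine ⟨u1 - tL p * (u0 * γ + u1 * δ) + u3, add_mem (sub_mem hu1 (mul_mem ht
      (add_mem (mul_mem hu0 hγ) (mul_mem hu1 hδ)))) hu3, ?_⟩
    rw [e0, e1] at e4
    rw [e6] at e5
    linear_combination e1 - e4 + e5

end TF45
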