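import Pool.Agent.W_4ce76a_h14b.T3Dq

set_option autoImplicit false
set_option linter.unusedSectionVars false
set_option linter.unusedSimpArgs false

/-!
# MP_4ce76a_lc, two quantifiers behind any block: polynomials for `tame_core`
-/

namespace TF45

open TF14 MvPolynomial

variable {p : ℕ} [hp : Fact p.Prime] {κ : Type}

/-- the arguments of the difference quotients; the variables are `x, ρ, ξ, y, ξ', y'` -/
noncomputable def sb4 (P : MvPolynomial (κ ⊕ Fin 4) (K p)) : MvPolynomial (κ ⊕ Fin 6) (K p) :=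
  aeval (Sum.elim (fun i => X (Sum.inl i)) ![X (Sum.inr 0) * (1 + X (Sum.inr 2)), X (Sum.inr 3),
    X (Sum.inr 0) * (1 + X (Sum.inr 4)), X (Sum.inr 5)]) P

noncomputable def sb2 (P : MvPolynomial (κ ⊕ Fin 2) (K p)) : MvPolynomial (κ ⊕ Fin 6) (K p) :=
  aeval (Sum.elim (fun i => X (Sum.inl i)) ![X (Sum.inr 0) * (1 + X (Sum.inr 2)),
    X (Sum.inr 3)]) P

theorem sb4_ev (P : MvPolynomial (κ ⊕ Fin 4) (K p)) (D : κ → L p) (x ρ ξ y ξ' y' : L p) :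
    aeval (Sum.elim D ![x, ρ, ξ, y, ξ', y']) (sb4 P) =
      aeval (Sum.elim D ![x * (1 + ξ), y, x * (1 + ξ'), y']) P := by
  unfold sb4
  rw [comp_aeval_apply]
  congr 2
  funext i
  rcases i with i | i
  · simp
  · fin_cases i <;> simp

theorem sb2_ev (P : MvPolynomial (κ ⊕ Fin 2) (K p)) (D : κ → L p) (x ρ ξ y ξ' y' : L p) :
    aeval (Sum.elim D ![x, ρ, ξ, y, ξ', y']) (sb2 P) =
      aeval (Sum.elim D ![x * (1 + ξ), y]) P := by
  unfold sb2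
  rw [comp_aeval_apply]
  congr 2
  funext i
  rcases i with i | i
  · simp
  · fin_cases i <;> simp


noncomputable def PS (A : ℕ) : MvPolynomial (κ ⊕ Fin 6) (K p) :=
  ∑ i ∈ Finset.range A, (1 + X (Sum.inr 2)) ^ i * (1 + X (Sum.inr 4)) ^ (A - 1 - i)

theorem PS_ev (A : ℕ) (D : κ → L p) (x ρ ξ y ξ' y' : L p) :
    aeval (Sum.elim D ![x, ρ, ξ, y, ξ', y']) (PS A : MvPolynomial (κ ⊕ Fin 6) (K p)) =
      ∑ i ∈ Finset.range A, (1 + ξ) ^ i * (1 + ξ') ^ (A - 1 - i) := by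
  unfold PS
  rw [map_sum]
  refine Finset.sum_congr rfl fun i _ => ?_
  rw [map_mul, map_pow, map_pow, map_add, map_add, map_one, aeval_X, aeval_X]
  rfl

noncomputable def Z1 (A : ℕ) (U : MvPolynomial (κ ⊕ Fin 2) (K p))
    (U1 : MvPolynomial (κ ⊕ Fin 4) (K p)) : MvPolynomial (κ ⊕ Fin 6) (K p) :=
  PS A * sb2 U + (1 + X (Sum.inr 4)) ^ A * X (Sum.inr 0) * sb4 U1

theorem Z1_ev (A : ℕ) (U : MvPolynomial (κ ⊕ Fin 2) (K p)) (U1 : MvPolynomial (κ ⊕ Fin 4) (K p))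
    (D : κ → L p) (x ρ ξ y ξ' y' : L p) :
    aeval (Sum.elim D ![x, ρ, ξ, y, ξ', y']) (Z1 A U U1) =
      (∑ i ∈ Finset.range A, (1 + ξ) ^ i * (1 + ξ') ^ (A - 1 - i)) *
          aeval (Sum.elim D ![x * (1 + ξ), y]) U +
        (1 + ξ') ^ A * x * aeval (Sum.elim D ![x * (1 + ξ), y, x * (1 + ξ'), y']) U1 := by
  unfold Z1
  rw [map_add, map_mul, PS_ev, sb2_ev, map_mul, sb4_ev, map_mul, map_pow, map_add, map_one,
    aeval_X, aeval_X]
  rfl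

noncomputable def Z2 (A : ℕ) (U2 : MvPolynomial (κ ⊕ Fin 4) (K p)) :
    MvPolynomial (κ ⊕ Fin 6) (K p) :=
  X (Sum.inr 1) * (1 + X (Sum.inr 4)) ^ A * sb4 U2

theorem Z2_ev (A : ℕ) (U2 : MvPolynomial (κ ⊕ Fin 4) (K p)) (D : κ → L p)
    (x ρ ξ y ξ' y' : L p) :
    aeval (Sum.elim D ![x, ρ, ξ, y, ξ', y']) (Z2 A U2) =
      ρ * (1 + ξ') ^ A * aeval (Sum.elim D ![x * (1 + ξ), y, x * (1 + ξ'), y']) U2 := by
  unfold Z2
  rw [map_mul, sb4_ev, map_mul, map_pow, map_add, map_one, aeval_X, aeval_X]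
  rfl

/-- continuity at the point `(D, 0)` -/
theorem core_cont [Finite κ] (Z : MvPolynomial (κ ⊕ Fin 6) (K p)) (D : κ → L p) {e : L p}
    (he : e ≠ 0) : ∃ d : L p, d ≠ 0 ∧ ∀ (D' : κ → L p) (x ρ ξ y ξ' y' : L p),
      (∀ i, Cl (OL p) d (D' i) (D i)) → Cl (OL p) d x 0 → Cl (OL p) d ρ 0 → Cl (OL p) d ξ 0 →
      Cl (OL p) d y 0 → Cl (OL p) d ξ' 0 → Cl (OL p) d y' 0 →
      Cl (OL p) e (aeval (Sum.elim D' ![x, ρ, ξ, y, ξ', y']) Z)
        (aeval (Sum.elim D ![0, 0, 0, 0, 0, 0]) Z) := by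
  obtain ⟨d, hd, h⟩ := cont_aeval (O := OL p) Z (Sum.elim D ![0, 0, 0, 0, 0, 0]) he
  refine ⟨d, hd, fun D' x ρ ξ y ξ' y' hD hx hρ hξ hy hξ' hy' => h _ ?_⟩
  intro i
  rcases i with i | i
  · exact hD i
  · fin_cases i
    · exact hx
    · exact hρ
    · exact hξ
    · exact hy
    · exact hξ'
    · exact hy'

end TF45
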