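import Pool.Agent.W_4ce76a_h14b.T3Core
import Pool.Agent.W_4ce76a_h43.Def

set_option autoImplicit false
set_option linter.unusedSectionVars false
set_option linter.unusedSimpArgs false

/-!
# MP_4ce76a_lc, T3: lemmas for the tame stop
-/

namespace TF43

open TF14 TF45 Polynomial

variable {p : ℕ} [hp : Fact p.Prime] {κ : Type}

/-- the coefficients of `Y` do not contain `Y` -/
noncomputable def mvc : (MvPolynomial κ (K p))[X] →+* MvPolynomial (κ ⊕ Fin 2) (K p) :=
  eval₂RingHom ((MvPolynomial.rename Sum.inl : MvPolynomial κ (K p) →ₐ[K p]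
    MvPolynomial (κ ⊕ Fin 2) (K p)) : MvPolynomial κ (K p) →+* MvPolynomial (κ ⊕ Fin 2) (K p))
    (MvPolynomial.X (Sum.inr 0))

/-- a polynomial in `X`, `Y` as a polynomial in several variables -/
noncomputable def mvp : (MvPolynomial κ (K p))[X][X] →+* MvPolynomial (κ ⊕ Fin 2) (K p) :=
  eval₂RingHom mvc (MvPolynomial.X (Sum.inr 1))

theorem mvp_ev (Φ : (MvPolynomial κ (K p))[X][X]) (D : κ → L p) (x y : L p) :
    MvPolynomial.aeval (Sum.elim D ![x, y]) (mvp Φ) = (spz D Φ).evalEval x y := by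
  rw [QSpz_ev]
  have h1 := Polynomial.hom_eval₂ Φ mvc ((MvPolynomial.aeval (Sum.elim D ![x, y]) :
      MvPolynomial (κ ⊕ Fin 2) (K p) →ₐ[K p] L p) :
      MvPolynomial (κ ⊕ Fin 2) (K p) →+* L p) (MvPolynomial.X (Sum.inr 1))
  have h2 : ((MvPolynomial.aeval (Sum.elim D ![x, y]) :
      MvPolynomial (κ ⊕ Fin 2) (K p) →ₐ[K p] L p) :
      MvPolynomial (κ ⊕ Fin 2) (K p) →+* L p).comp (mvc : (MvPolynomial κ (K p))[X] →+* _) =
      (evalRingHom x).comp (mapRingHom
      ((MvPolynomial.aeval D : MvPolynomial κ (K p) →ₐ[K p] L p) :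
        MvPolynomial κ (K p) →+* L p)) := by
    refine Polynomial.ringHom_ext (fun a => ?_) ?_
    · simp only [mvc, RingHom.comp_apply, coe_eval₂RingHom, eval₂_C, RingHom.coe_coe,
        MvPolynomial.aeval_rename, coe_mapRingHom, map_C, coe_evalRingHom, eval_C,
        Sum.elim_comp_inl]
    · simp [mvc]
  rw [h2] at h1
  refine h1.trans ?_
  congr 1
  simp

theorem pd_rename (q : MvPolynomial κ (K p)) : MvPolynomial.pderiv (Sum.inr (1 : Fin 2))
    (MvPolynomial.rename (Sum.inl : κ → κ ⊕ Fin 2) q) = 0 := by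
  induction q using MvPolynomial.induction_on with
  | C a => simp
  | add P Q hP hQ => rw [map_add, map_add, hP, hQ, add_zero]
  | mul_X P i hP =>
    rw [map_mul, MvPolynomial.rename_X, MvPolynomial.pderiv_mul, hP, zero_mul,
      MvPolynomial.pderiv_X_of_ne (by simp), mul_zero, add_zero]

theorem pd_mvc (c : (MvPolynomial κ (K p))[X]) :
    MvPolynomial.pderiv (Sum.inr (1 : Fin 2)) (mvc c) = 0 := by
  induction c using Polynomial.induction_on' with
  | add P Q hP hQ => rw [map_add, map_add, hP, hQ, add_zero]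
  | monomial n a =>
    have h1 : mvc (monomial n a) = MvPolynomial.rename Sum.inl a *
        MvPolynomial.X (Sum.inr (0 : Fin 2)) ^ n := by
      simp [mvc]
    rw [h1, MvPolynomial.pderiv_mul, pd_rename, zero_mul, MvPolynomial.pderiv_pow,
      MvPolynomial.pderiv_X_of_ne (by simp), mul_zero, mul_zero, add_zero]

theorem pd_mvp (Φ : (MvPolynomial κ (K p))[X][X]) :
    MvPolynomial.pderiv (Sum.inr (1 : Fin 2)) (mvp Φ) = mvp (derivative Φ) := by
  induction Φ using Polynomial.induction_on' with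
  | add P Q hP hQ => rw [map_add, map_add, hP, hQ, map_add, map_add]
  | monomial n a =>
    have h1 : ∀ (m : ℕ) (c : (MvPolynomial κ (K p))[X]), mvp (monomial m c) = mvc c *
        MvPolynomial.X (Sum.inr (1 : Fin 2)) ^ m := by
      intro m c
      simp [mvp]
    rw [derivative_monomial, h1, h1, MvPolynomial.pderiv_mul, pd_mvc, zero_mul,
      MvPolynomial.pderiv_pow, MvPolynomial.pderiv_X_self, map_mul, map_natCast]
    ring

theorem pd_ev (Φ : (MvPolynomial κ (K p))[X][X]) (D : κ → L p) (x y : L p) :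
    MvPolynomial.aeval (Sum.elim D ![x, y]) (MvPolynomial.pderiv (Sum.inr 1) (mvp Φ)) =
      (derivative (spz D Φ)).evalEval x y := by
  rw [pd_mvp, mvp_ev]
  congr 1
  unfold spz
  rw [derivative_map]

theorem ev_near [Finite κ] (Φ : (MvPolynomial κ (K p))[X][X]) (D : κ → L p)
    (h : (spz D Φ).evalEval 0 0 ≠ 0) : ∃ e : L p, e ≠ 0 ∧ ∀ (D' : κ → L p) (x y : L p),
      (∀ i, Cl (OL p) e (D' i) (D i)) → Cl (OL p) e x 0 → Cl (OL p) e y 0 →
      Eqv ((spz D' Φ).evalEval x y) ((spz D Φ).evalEval 0 0) := by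
  obtain ⟨q, hq0, hq⟩ := nontriv (ta_L p)
  obtain ⟨e, he, h1⟩ := cont_aeval (O := OL p) (mvp Φ) (Sum.elim D ![0, 0])
    (mul_ne_zero h hq0)
  refine ⟨e, he, fun D' x y hD hx hy => ?_⟩
  have h2 := h1 (Sum.elim D' ![x, y]) (by
    intro i
    rcases i with i | i
    · exact hD i
    · fin_cases i
      · exact hx
      · exact hy)
  rw [mvp_ev, mvp_ev] at h2
  exact Atom_unit hq h2

theorem eqv_root {a b : L p} {B : ℕ} (hB : B ≠ 0) (h : Eqv (a ^ B) (b ^ B)) : Eqv a b := by
  by_cases hb : b = 0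
  · have h1 : a = 0 := by
      have h2 := (eqv_zero h).2 (by rw [hb, zero_pow hB])
      exact pow_eq_zero_iff hB |>.1 h2
    rw [h1, hb]
    exact eqv_refl 0
  · have h1 := (eqv_iff (pow_ne_zero B hb)).1 h
    refine (eqv_iff hb).2 ⟨fun ha => h1.1 (by rw [ha, zero_pow hB]), ?_⟩
    have h2 := h1.2
    rw [ord_pow, ord_pow] at h2
    have h3 : (B : ℤ) ≠ 0 := by exact_mod_cast hB
    exact mul_left_cancel₀ h3 h2

/-- the orders in `X` and in `Y` -/
theorem sp_nice {u G U V : (L p)[X][X]} {A B a b : ℕ} (hG0 : G.evalEval 0 0 = 0)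
    (hG1 : (derivative G).evalEval 0 0 ≠ 0) (hu : u.evalEval 0 0 ≠ 0) (hU : U.evalEval 0 0 ≠ 0)
    (hV : V.evalEval 0 0 ≠ 0) (h : V * sp u A B = C X ^ a * G ^ b * U) :
    a = A ∧ b = B ∧ V * X ^ B * u = G ^ B * U := by
  let φ : (L p)[X][X] →+* (L p)[X] := mapRingHom (evalRingHom 0)
  have hφ : ∀ F : (L p)[X][X], (φ F).eval 0 = F.evalEval 0 0 := by
    intro F
    rw [QSpz_eval₂]
    simp only [φ, coe_mapRingHom]
    rw [eval_map]
  have hφX : φ (C X) = 0 := by simp [φ]
  have hφY : φ X = X := by simp [φ]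
  have hCX : (C X : (L p)[X][X]) ≠ 0 := by
    rw [Ne, C_eq_zero]
    exact X_ne_zero
  obtain ⟨g1, hg1⟩ : ∃ g1 : (L p)[X], φ G = X * g1 := by
    have h1 : X ∣ φ G := by
      rw [X_dvd_iff, coeff_zero_eq_eval_zero, hφ, hG0]
    exact h1
  have hg10 : g1.eval 0 ≠ 0 := by
    have h1 : (derivative (φ G)).eval 0 = (derivative G).evalEval 0 0 := by
      rw [← hφ]
      simp only [φ, coe_mapRingHom]
      rw [derivative_map]
    rw [hg1] at h1
    simp at h1
    rw [h1]
    exact hG1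
  have hne : ∀ F : (L p)[X][X], F.evalEval 0 0 ≠ 0 → φ F ≠ 0 := by
    intro F hF h0
    apply hF
    rw [← hφ, h0, eval_zero]
  have hGne : φ G ≠ 0 := by
    rw [hg1]
    refine mul_ne_zero X_ne_zero ?_
    intro h0
    rw [h0, eval_zero] at hg10
    exact hg10 rfl
  have hR : φ (G ^ b * U) ≠ 0 := by
    rw [map_mul, map_pow]
    exact mul_ne_zero (pow_ne_zero _ hGne) (hne U hU)
  have hL : φ (V * X ^ B * u) ≠ 0 := by
    rw [map_mul, map_mul, map_pow, hφY]
    exact mul_ne_zero (mul_ne_zero (hne V hV) (pow_ne_zero _ X_ne_zero)) (hne u hu)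
  have h' : C X ^ A * (V * X ^ B * u) = C X ^ a * (G ^ b * U) := by
    rw [← mul_assoc (C X ^ a), ← h]
    unfold sp
    ring
  have hA : a = A := by
    rcases lt_trichotomy a A with hlt | heq | hlt
    · exfalso
      obtain ⟨m, rfl⟩ := Nat.exists_eq_add_of_lt hlt
      have h1 : C X ^ a * (C X ^ (m + 1) * (V * X ^ B * u)) = C X ^ a * (G ^ b * U) := by
        rw [← h']
        ring
      have h2 := mul_left_cancel₀ (pow_ne_zero a hCX) h1
      apply hR
      rw [← h2, map_mul, map_pow, hφX, pow_succ, mul_zero, zero_mul]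
    · exact heq
    · exfalso
      obtain ⟨m, rfl⟩ := Nat.exists_eq_add_of_lt hlt
      have h1 : C X ^ A * (V * X ^ B * u) = C X ^ A * (C X ^ (m + 1) * (G ^ b * U)) := by
        rw [h']
        ring
      have h2 := mul_left_cancel₀ (pow_ne_zero A hCX) h1
      apply hL
      rw [h2, map_mul, map_pow, hφX, pow_succ, mul_zero, zero_mul]
  subst hA
  have h2 := mul_left_cancel₀ (pow_ne_zero a hCX) h'
  have h3 := congrArg φ h2
  rw [map_mul, map_mul, map_mul, map_pow, map_pow, hφY, hg1] at h3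
  have h4 : X ^ B * (φ V * φ u) = X ^ b * (g1 ^ b * φ U) := by
    rw [mul_pow] at h3
    linear_combination h3
  have hv1 : (φ V * φ u).eval 0 ≠ 0 := by
    rw [eval_mul, hφ, hφ]
    exact mul_ne_zero hV hu
  have hv2 : (g1 ^ b * φ U).eval 0 ≠ 0 := by
    rw [eval_mul, eval_pow, hφ]
    exact mul_ne_zero (pow_ne_zero _ hg10) hU
  have hB : b = B := by
    rcases lt_trichotomy b B with hlt | heq | hlt
    · exfalso
      obtain ⟨m, rfl⟩ := Nat.exists_eq_add_of_lt hlt
      have h1 : X ^ b * (X ^ (m + 1) * (φ V * φ u)) = X ^ b * (g1 ^ b * φ U) := by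
        rw [← h4]
        ring
      have h5 := mul_left_cancel₀ (pow_ne_zero b X_ne_zero) h1
      apply hv2
      rw [← h5, eval_mul, eval_pow, eval_X, pow_succ, mul_zero, zero_mul]
    · exact heq
    · exfalso
      obtain ⟨m, rfl⟩ := Nat.exists_eq_add_of_lt hlt
      have h1 : X ^ B * (φ V * φ u) = X ^ B * (X ^ (m + 1) * (g1 ^ (B + m + 1) * φ U)) := by
        rw [h4]
        ring
      have h5 := mul_left_cancel₀ (pow_ne_zero B X_ne_zero) h1
      apply hv1
      rw [h5, eval_mul, eval_pow, eval_X, pow_succ, mul_zero, zero_mul]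
  subst hB
  exact ⟨rfl, rfl, h2⟩

end TF43
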