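import Pool.Agent.W_4ce76a_h14b.T4a

set_option autoImplicit false
set_option linter.unusedSectionVars false
set_option linter.unusedSimpArgs false

/-!
# MP_4ce76a_lc, T3: partners near a tame stop
-/

namespace TF43

open TF14 TF45 Polynomial

variable {p : ℕ} [hp : Fact p.Prime] {κ : Type}

theorem t4_cl_mul {e a c : L p} (h : Cl (OL p) e a 0) (hc : c ∈ OL p) : Cl (OL p) e (a * c) 0 := by
  obtain ⟨u, hu, h1⟩ := h
  rw [sub_zero] at h1
  exact ⟨u * c, mul_mem hu hc, by rw [sub_zero, h1]; ring⟩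

theorem t4_alg {a U σ s : L p} (h : a * U = σ) (hσ : σ ≠ 0) : a * (s / σ * U) = s := by
  have h1 : a * (s / σ * U) = s / σ * (a * U) := by ring
  rw [h1, h, div_mul_cancel₀ _ hσ]

/-- The points of the three cases. -/
theorem t4_points [Finite κ] {D : κ → L p} {Dn : ℕ → κ → L p} (hD : Tk D Dn)
    (Υ Γ : (MvPolynomial κ (K p))[X][X]) {A B : ℕ} (hAB : ¬ (p ∣ A ∧ p ∣ B))
    (hG1 : (derivative (spz D Γ)).evalEval 0 0 ≠ 0)
    (hu : (spz D Υ).evalEval 0 0 ≠ 0) {x y σ s : ℕ → L p}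
    (hx : Tnd x 0) (hy : Tnd y 0) (hσ : ∀ n, σ n ≠ 0) (hq : Tnd (fun n => s n / σ n) 1)
    (heq : ∀ n, x n ^ A * y n ^ B * (spz D Υ).evalEval (x n) (y n) = σ n)
    {e : L p} (he : e ≠ 0) : ∃ n0 : ℕ, ∀ n ≥ n0, ∃ x' y' : L p, Cl (OL p) e x' 0 ∧
      Cl (OL p) e y' 0 ∧ Eqv x' (x n) ∧
      x' ^ A * y' ^ B * (spz (Dn n) Υ).evalEval x' y' = s n ∧
      ((B ≠ 0 ∧ Eqv y' (y n)) ∨
        (spz (Dn n) Γ).evalEval x' y' = (spz D Γ).evalEval (x n) (y n)) := by
  have hchar : CharP (L p) p := (ta_L p).char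
  have hDt : ∀ i, Tnd (fun n => Dn n i) (D i) := fun i => tk_tnd hD i
  obtain ⟨q, hq0, hqv⟩ := nontriv (ta_L p)
  have hqO : q ∈ OL p := ((OL p).valuation_le_one_iff q).1 hqv.le
  obtain ⟨d, hd, hde, hdq⟩ := exists_both (O := OL p) he hq0
  have hunit : ∀ ξ : L p, Cl (OL p) d ξ 0 → Eqv (1 + ξ) 1 := by
    intro ξ hξ
    obtain ⟨u, hu, h1⟩ := hdq _ _ hξ
    rw [sub_zero] at h1
    exact Atom_unit hqv ⟨u, hu, by rw [add_sub_cancel_left, one_mul, h1]⟩
  have hunitO : ∀ ξ : L p, Cl (OL p) d ξ 0 → 1 + ξ ∈ OL p := by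
    intro ξ hξ
    obtain ⟨u, hu, h1⟩ := hdq _ _ hξ
    rw [sub_zero] at h1
    rw [h1]
    exact add_mem (one_mem _) (mul_mem hqO hu)
  -- the right sides
  have hr : Tnd (fun n => s n / σ n * (spz D Υ).evalEval (x n) (y n))
      ((spz D Υ).evalEval 0 0) := by
    have h1 := mv_tnd (D := D) (Dn := fun _ => D) (fun i => tnd_const (D i)) (mvp Υ) hx hy
    simp only [mvp_ev] at h1
    have h2 := tnd_mul hq h1
    rw [one_mul] at h2
    exact h2
  by_cases hpB : p ∣ B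
  · have hpA : ¬ p ∣ A := fun h => hAB ⟨h, hpB⟩
    have hAL : (A : L p) ≠ 0 := by
      intro h
      exact hpA ((CharP.cast_eq_zero_iff (L p) p A).1 h)
    by_cases hB : B = 0
    · -- the case `B = 0`
      have hg : Tnd (fun n => (spz D Γ).evalEval (x n) (y n)) ((spz D Γ).evalEval 0 0) := by
        have h1 := mv_tnd (D := D) (Dn := fun _ => D) (fun i => tnd_const (D i)) (mvp Γ) hx hy
        simp only [mvp_ev] at h1
        exact h1
      obtain ⟨n0, hn0⟩ := tame_core hDt (mvp Υ) (mvp Γ) hAL (by rw [mvp_ev]; exact hu)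
        (by rw [pd_ev]; exact hG1) hx (by rw [mvp_ev]; exact hr) (by rw [mvp_ev]; exact hg) hd
      obtain ⟨n1, hn1⟩ := hx d hd
      refine ⟨max n0 n1, fun n hn => ?_⟩
      obtain ⟨ξ, y', hξ, hy', e1, e2⟩ := hn0 n ((le_max_left _ _).trans hn)
      have hxn := hn1 n ((le_max_right _ _).trans hn)
      rw [mvp_ev] at e1 e2
      refine ⟨x n * (1 + ξ), y', hde _ _ (t4_cl_mul hxn (hunitO ξ hξ)), hde _ _ hy', ?_, ?_,
        Or.inr e2⟩
      · have h1 := eqv_mul (eqv_refl (x n)) (hunit ξ hξ)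
        rwa [mul_one] at h1
      · have h1 := heq n
        rw [hB, pow_zero, mul_one] at h1 ⊢
        rw [mul_pow, mul_assoc, e1]
        have h2 : s n = s n / σ n * σ n := (div_mul_cancel₀ _ (hσ n)).symm
        rw [h2, ← h1]
        field_simp
    · -- `y' = y n`
      obtain ⟨n0, hn0⟩ := tame_core hDt (mvp Υ) (MvPolynomial.X (Sum.inr 1)) hAL
        (by rw [mvp_ev]; exact hu)
        (by rw [MvPolynomial.pderiv_X_self, map_one]; exact one_ne_zero) hx
        (by rw [mvp_ev]; exact hr) (g := y) (by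
          rw [MvPolynomial.aeval_X]
          exact hy) hd
      obtain ⟨n1, hn1⟩ := hx d hd
      refine ⟨max n0 n1, fun n hn => ?_⟩
      obtain ⟨ξ, y', hξ, hy', e1, e2⟩ := hn0 n ((le_max_left _ _).trans hn)
      have hxn := hn1 n ((le_max_right _ _).trans hn)
      rw [mvp_ev] at e1
      rw [MvPolynomial.aeval_X] at e2
      change y' = y n at e2
      refine ⟨x n * (1 + ξ), y', hde _ _ (t4_cl_mul hxn (hunitO ξ hξ)), hde _ _ hy', ?_, ?_,
        Or.inl ⟨hB, ?_⟩⟩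
      · have h1 := eqv_mul (eqv_refl (x n)) (hunit ξ hξ)
        rwa [mul_one] at h1
      · have h1 := heq n
        have h3 : (x n * (1 + ξ)) ^ A * y' ^ B * (spz (Dn n) Υ).evalEval (x n * (1 + ξ)) y' =
            x n ^ A * y' ^ B * ((1 + ξ) ^ A * (spz (Dn n) Υ).evalEval (x n * (1 + ξ)) y') := by
          rw [mul_pow]
          ring
        rw [h3, e1, e2, t4_alg h1 (hσ n)]
      · rw [e2]
        exact eqv_refl _
  · -- `x' = x n`
    have hB : B ≠ 0 := fun h => hpB (h ▸ dvd_zero p)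
    have hBL : (B : L p) ≠ 0 := by
      intro h
      exact hpB ((CharP.cast_eq_zero_iff (L p) p B).1 h)
    have hsw : ∀ (P : MvPolynomial (κ ⊕ Fin 2) (K p)) (D' : κ → L p) (x y : L p),
        MvPolynomial.aeval (Sum.elim D' ![x, y]) (MvPolynomial.rename (Sum.map id ![1, 0]) P) =
        MvPolynomial.aeval (Sum.elim D' ![y, x]) P := by
      intro P D' x y
      rw [MvPolynomial.aeval_rename]
      congr 2
      funext j
      rcases j with j | j
      · rfl
      · fin_cases j <;> rfl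
    obtain ⟨n0, hn0⟩ := tame_core hDt (MvPolynomial.rename (Sum.map id ![1, 0]) (mvp Υ))
      (MvPolynomial.X (Sum.inr 1)) hBL
      (by rw [hsw, mvp_ev]; exact hu)
      (by rw [MvPolynomial.pderiv_X_self, map_one]; exact one_ne_zero) hy
      (by rw [hsw, mvp_ev]; exact hr) (g := x) (by
        rw [MvPolynomial.aeval_X]
        exact hx) hd
    obtain ⟨n1, hn1⟩ := hy d hd
    refine ⟨max n0 n1, fun n hn => ?_⟩
    obtain ⟨ξ, x', hξ, hx', e1, e2⟩ := hn0 n ((le_max_left _ _).trans hn)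
    have hyn := hn1 n ((le_max_right _ _).trans hn)
    rw [hsw, mvp_ev] at e1
    rw [MvPolynomial.aeval_X] at e2
    change x' = x n at e2
    refine ⟨x', y n * (1 + ξ), hde _ _ hx', hde _ _ (t4_cl_mul hyn (hunitO ξ hξ)), ?_, ?_,
      Or.inl ⟨hB, ?_⟩⟩
    · rw [e2]
      exact eqv_refl _
    · have h1 := heq n
      have h3 : x' ^ A * (y n * (1 + ξ)) ^ B * (spz (Dn n) Υ).evalEval x' (y n * (1 + ξ)) =
          x' ^ A * y n ^ B * ((1 + ξ) ^ B * (spz (Dn n) Υ).evalEval x' (y n * (1 + ξ))) := by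
        rw [mul_pow]
        ring
      rw [h3, e1, e2, t4_alg h1 (hσ n)]
    · have h1 := eqv_mul (eqv_refl (y n)) (hunit ξ hξ)
      rwa [mul_one] at h1

end TF43
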