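import Pool.Agent.W_4ce76a_h14b.T4b

set_option autoImplicit false
set_option linter.unusedSectionVars false
set_option linter.unusedSimpArgs false

/-!
# MP_4ce76a_lc, T3: the tame stop for tracked families
-/

namespace TF43

open TF14 TF45 Polynomial

variable {p : ℕ} [hp : Fact p.Prime] {κ : Type}

theorem t4_neg (D : κ → L p) :
    spz D (C (C (MvPolynomial.C (-1))) : (MvPolynomial κ (K p))[X][X]) = -1 := QNice_C D

theorem t4_Y (D : κ → L p) : spz D (X : (MvPolynomial κ (K p))[X][X]) = X := by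
  unfold spz
  rw [Polynomial.map_X]

/-- identities persist -/
theorem t4_per {D : κ → L p} {Dn : ℕ → κ → L p} (hD : Tk D Dn)
    (P Q : (MvPolynomial κ (K p))[X][X]) (h : spz D P = spz D Q) :
    ∃ n0 : ℕ, ∀ n ≥ n0, spz (Dn n) P = spz (Dn n) Q := by
  obtain ⟨n0, hn0⟩ := spz_zero hD (P + C (C (MvPolynomial.C (-1))) * Q) (by
    rw [QNice_add, QNice_mul, QNice_C, h]
    ring)
  refine ⟨n0, fun n hn => ?_⟩
  have h1 := hn0 n hn
  rw [QNice_add, QNice_mul, QNice_C] at h1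
  linear_combination h1

theorem tame_aux {J : Type} [Finite J] [Finite κ] {D : κ → L p} {Dn : ℕ → κ → L p}
    (hD : Tk D Dn) (Φ U V : J → (MvPolynomial κ (K p))[X][X])
    (Υ Γ U0 V0 : (MvPolynomial κ (K p))[X][X]) {a b : J → ℕ} {A B : ℕ}
    (hAB : ¬ (p ∣ A ∧ p ∣ B))
    (hΦ : ∀ j, spz D (Φ j) = 0 ∨
      spz D (V j * Φ j) = spz D (C X ^ a j * Γ ^ b j * U j))
    (hS0 : spz D (V0 * X ^ B * Υ) = spz D (Γ ^ B * U0))
    (hG1 : (derivative (spz D Γ)).evalEval 0 0 ≠ 0)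
    (hu : (spz D Υ).evalEval 0 0 ≠ 0) (hU0 : (spz D U0).evalEval 0 0 ≠ 0)
    (hV0 : (spz D V0).evalEval 0 0 ≠ 0) (hU : ∀ j, (spz D (U j)).evalEval 0 0 ≠ 0)
    (hV : ∀ j, (spz D (V j)).evalEval 0 0 ≠ 0) {x y σ s : ℕ → L p}
    (hx : Tnd x 0) (hy : Tnd y 0) (hσ : ∀ n, σ n ≠ 0) (hq : Tnd (fun n => s n / σ n) 1)
    (heq : ∀ n, x n ^ A * y n ^ B * (spz D Υ).evalEval (x n) (y n) = σ n) :
    ∃ (n : ℕ) (x' y' : L p), x' ^ A * y' ^ B * (spz (Dn n) Υ).evalEval x' y' = s n ∧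
      ∀ j, Eqv ((spz (Dn n) (Φ j)).evalEval x' y') ((spz D (Φ j)).evalEval (x n) (y n)) := by
  classical
  -- persistence
  have hp1 : ∀ j, ∃ n0 : ℕ, ∀ n ≥ n0, (spz D (Φ j) = 0 ∧ spz (Dn n) (Φ j) = 0) ∨
      (spz D (V j * Φ j) = spz D (C X ^ a j * Γ ^ b j * U j) ∧
        spz (Dn n) (V j * Φ j) = spz (Dn n) (C X ^ a j * Γ ^ b j * U j)) := by
    intro j
    rcases hΦ j with h | h
    · obtain ⟨n0, hn0⟩ := spz_zero hD (Φ j) h
      exact ⟨n0, fun n hn => Or.inl ⟨h, hn0 n hn⟩⟩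
    · obtain ⟨n0, hn0⟩ := t4_per hD _ _ h
      exact ⟨n0, fun n hn => Or.inr ⟨h, hn0 n hn⟩⟩
  obtain ⟨N1, hN1⟩ := QNice_all hp1
  obtain ⟨N2, hN2⟩ := t4_per hD _ _ hS0
  -- radii
  choose eU heU hevU using fun j => ev_near (U j) D (hU j)
  choose eV heV hevV using fun j => ev_near (V j) D (hV j)
  obtain ⟨eU0, heU0, hevU0⟩ := ev_near U0 D hU0
  obtain ⟨eV0, heV0, hevV0⟩ := ev_near V0 D hV0
  obtain ⟨eu, heu, hevu⟩ := ev_near Υ D hu
  obtain ⟨e1, he1, h1⟩ := exists_all (O := OL p) eU heU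
  obtain ⟨e2, he2, h2⟩ := exists_all (O := OL p) eV heV
  obtain ⟨e, he, hq'⟩ := exists_all (O := OL p) ![e1, e2, eU0, eV0, eu] (by
    intro i
    fin_cases i
    · exact he1
    · exact he2
    · exact heU0
    · exact heV0
    · exact heu)
  have q1 := hq' 0
  have q2 := hq' 1
  have q3 := hq' 2
  have q4 := hq' 3
  have q5 := hq' 4
  change ∀ a b, Cl (OL p) e a b → Cl (OL p) e1 a b at q1
  change ∀ a b, Cl (OL p) e a b → Cl (OL p) e2 a b at q2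
  change ∀ a b, Cl (OL p) e a b → Cl (OL p) eU0 a b at q3
  change ∀ a b, Cl (OL p) e a b → Cl (OL p) eV0 a b at q4
  change ∀ a b, Cl (OL p) e a b → Cl (OL p) eu a b at q5
  obtain ⟨N3, hN3⟩ := QNice_all fun i => tk_tnd hD i e he
  obtain ⟨N4, hN4⟩ := hx e he
  obtain ⟨N5, hN5⟩ := hy e he
  obtain ⟨N6, hN6⟩ := t4_points hD Υ Γ hAB hG1 hu hx hy hσ hq heq he
  obtain ⟨n, k1, k2, k3, k4, k5, k6⟩ :
      ∃ n, n ≥ N1 ∧ n ≥ N2 ∧ n ≥ N3 ∧ n ≥ N4 ∧ n ≥ N5 ∧ n ≥ N6 :=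
    ⟨N1 + N2 + N3 + N4 + N5 + N6, by omega, by omega, by omega, by omega, by omega, by omega⟩
  have g1 := hN1 n k1
  have g2 := hN2 n k2
  have g3 := hN3 n k3
  have g4 := hN4 n k4
  have g5 := hN5 n k5
  obtain ⟨x', y', hx', hy', hxx, hS, hor⟩ := hN6 n k6
  clear hN1 hN2 hN3 hN4 hN5 hN6 hp1
  have hrefl : ∀ i, Cl (OL p) e (D i) (D i) := fun i => cl_refl e _
  -- values of units
  have uU0 : Eqv ((spz (Dn n) U0).evalEval x' y') ((spz D U0).evalEval (x n) (y n)) :=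
    eqv_trans (hevU0 (Dn n) x' y' (fun i => q3 _ _ (g3 i)) (q3 _ _ hx') (q3 _ _ hy'))
      (eqv_symm (hevU0 D (x n) (y n) (fun i => q3 _ _ (hrefl i)) (q3 _ _ g4) (q3 _ _ g5)))
  have uV0 : Eqv ((spz (Dn n) V0).evalEval x' y') ((spz D V0).evalEval (x n) (y n)) :=
    eqv_trans (hevV0 (Dn n) x' y' (fun i => q4 _ _ (g3 i)) (q4 _ _ hx') (q4 _ _ hy'))
      (eqv_symm (hevV0 D (x n) (y n) (fun i => q4 _ _ (hrefl i)) (q4 _ _ g4) (q4 _ _ g5)))
  have uu : Eqv ((spz (Dn n) Υ).evalEval x' y') ((spz D Υ).evalEval (x n) (y n)) :=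
    eqv_trans (hevu (Dn n) x' y' (fun i => q5 _ _ (g3 i)) (q5 _ _ hx') (q5 _ _ hy'))
      (eqv_symm (hevu D (x n) (y n) (fun i => q5 _ _ (hrefl i)) (q5 _ _ g4) (q5 _ _ g5)))
  have uU : ∀ j, Eqv ((spz (Dn n) (U j)).evalEval x' y') ((spz D (U j)).evalEval (x n) (y n)) :=
    fun j => eqv_trans (hevU j (Dn n) x' y' (fun i => h1 j _ _ (q1 _ _ (g3 i)))
      (h1 j _ _ (q1 _ _ hx')) (h1 j _ _ (q1 _ _ hy')))
      (eqv_symm (hevU j D (x n) (y n) (fun i => h1 j _ _ (q1 _ _ (hrefl i)))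
      (h1 j _ _ (q1 _ _ g4)) (h1 j _ _ (q1 _ _ g5))))
  have uV : ∀ j, Eqv ((spz (Dn n) (V j)).evalEval x' y') ((spz D (V j)).evalEval (x n) (y n)) :=
    fun j => eqv_trans (hevV j (Dn n) x' y' (fun i => h2 j _ _ (q2 _ _ (g3 i)))
      (h2 j _ _ (q2 _ _ hx')) (h2 j _ _ (q2 _ _ hy')))
      (eqv_symm (hevV j D (x n) (y n) (fun i => h2 j _ _ (q2 _ _ (hrefl i)))
      (h2 j _ _ (q2 _ _ g4)) (h2 j _ _ (q2 _ _ g5))))
  have nV : ∀ j, (spz (Dn n) (V j)).evalEval x' y' ≠ 0 := by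
    intro j h0
    apply hV j
    exact (eqv_zero (hevV j (Dn n) x' y' (fun i => h2 j _ _ (q2 _ _ (g3 i)))
      (h2 j _ _ (q2 _ _ hx')) (h2 j _ _ (q2 _ _ hy')))).1 h0
  have nU0 : (spz (Dn n) U0).evalEval x' y' ≠ 0 := by
    intro h0
    apply hU0
    exact (eqv_zero (hevU0 (Dn n) x' y' (fun i => q3 _ _ (g3 i)) (q3 _ _ hx')
      (q3 _ _ hy'))).1 h0
  -- the values of `G`
  have hG : Eqv ((spz (Dn n) Γ).evalEval x' y') ((spz D Γ).evalEval (x n) (y n)) := by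
    rcases hor with ⟨hB, hyy⟩ | h
    · apply eqv_root hB
      have f1 : ∀ (D' : κ → L p) (x y : L p), spz D' (V0 * X ^ B * Υ) = spz D' (Γ ^ B * U0) →
          (spz D' U0).evalEval x y * (spz D' Γ).evalEval x y ^ B =
            (spz D' V0).evalEval x y * y ^ B * (spz D' Υ).evalEval x y := by
        intro D' x y h
        rw [QNice_mul, QNice_mul, QNice_mul, QNice_pow, QNice_pow, t4_Y] at h
        have h' := congrArg (fun P : (L p)[X][X] => P.evalEval x y) h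
        simp only [evalEval_mul, evalEval_pow] at h'
        have hX : (X : (L p)[X][X]).evalEval x y = y := by simp [evalEval]
        rw [hX] at h'
        rw [mul_comm, ← h']
      refine eqv_cancel nU0 uU0 ?_
      rw [f1 (Dn n) x' y' g2, f1 D (x n) (y n) hS0]
      exact eqv_mul (eqv_mul uV0 (eqv_pow hyy B)) uu
    · rw [h]
      exact eqv_refl _
  refine ⟨n, x', y', hS, fun j => ?_⟩
  rcases g1 j with ⟨z1, z2⟩ | ⟨z1, z2⟩
  · rw [z1, z2, evalEval_zero, evalEval_zero]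
    exact eqv_refl _
  · have f1 : ∀ (D' : κ → L p) (x y : L p),
        spz D' (V j * Φ j) = spz D' (C X ^ a j * Γ ^ b j * U j) →
        (spz D' (V j)).evalEval x y * (spz D' (Φ j)).evalEval x y =
          x ^ a j * (spz D' Γ).evalEval x y ^ b j * (spz D' (U j)).evalEval x y := by
      intro D' x y h
      rw [QNice_mul, QNice_mul, QNice_mul, QNice_pow, QNice_pow, QNice_X] at h
      exact QNice_ev h x y
    refine eqv_cancel (nV j) (uV j) ?_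
    rw [f1 (Dn n) x' y' z2, f1 D (x n) (y n) z1]
    exact eqv_mul (eqv_mul (eqv_pow hxx _) (eqv_pow hG _)) (uU j)

end TF43
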